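import Pool.Agent.H30.BV.Targets
import Pool.Agent.H30.PF.FA

/-!
Module FB of the board bv_modules.
-/

set_option autoImplicit false

open Finset Real Filter
open ArithmeticFunction (cardFactors)

namespace Pool.Agent.H51.BV

open Pool.Agent.H30.PF

/-- the size of an exceptional set -/
theorem size_le {C1 n X K r s B : ℝ} (hn : 1 < log n) (hK : 0 ≤ K) (hn0 : 0 ≤ n) (hX0 : 0 ≤ X)
    (hnX : log n ≤ log X) (hX : X ≤ K * n * (log n) ^ r) (hs : 0 ≤ s) (hB : 0 ≤ B)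
    (h1 : r - (1 + s) ≤ -(1.002)) (h2 : r - B ≤ -(1.002)) :
    C1 * X / log X * (log X) ^ (-s) + C1 * X / (log X) ^ B ≤
      2 * |C1| * (K * n * (log n) ^ (-(1.002) : ℝ)) := by
  have hl0 : 0 < log X := by linarith
  have s1 : X / log X * (log X) ^ (-s) ≤ K * n * (log n) ^ (-(1.002) : ℝ) := by
    have e1 : X / log X * (log X) ^ (-s) = X * (log X) ^ (-(1 + s)) := by
      rw [neg_add, rpow_add hl0, rpow_neg_one]
      ring
    rw [e1]
    refine (ratio_le (r := r) (s := 1 + s) hn hK hn0 (by linarith) hnX hX).trans ?_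
    exact mul_le_mul_of_nonneg_left (rpow_le_rpow_of_exponent_le hn.le h1) (by positivity)
  have s2 : X / (log X) ^ B ≤ K * n * (log n) ^ (-(1.002) : ℝ) := by
    have e1 : X / (log X) ^ B = X * (log X) ^ (-B) := by
      rw [rpow_neg hl0.le]
      ring
    rw [e1]
    refine (ratio_le (r := r) (s := B) hn hK hn0 hB hnX hX).trans ?_
    exact mul_le_mul_of_nonneg_left (rpow_le_rpow_of_exponent_le hn.le h2) (by positivity)
  have e1 : C1 * X / log X * (log X) ^ (-s) = C1 * (X / log X * (log X) ^ (-s)) := by ring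
  have e2 : C1 * X / (log X) ^ B = C1 * (X / (log X) ^ B) := by ring
  rw [e1, e2]
  refine two_terms s1 s2 ?_ ?_
  · have := rpow_nonneg hl0.le (-s)
    positivity
  · have := rpow_nonneg hl0.le B
    positivity

/-- the primes up to `pr N` -/
theorem card_primes_le (N R : ℕ) (hN : 1 ≤ N) :
    ((Icc 1 (pr N)).filter (fun p => p.Prime ∧ cardFactors (p ^ 2 - 2) ≤ R)).card ≤
    ((Icc 1 N).filter (fun k => cardFactors (pr k ^ 2 - 2) ≤ R)).card := by
  classical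
  have hpr : ∀ p : ℕ, p.Prime → pr (Nat.count Nat.Prime p + 1) = p := by
    intro p hp
    unfold pr
    rw [Nat.add_sub_cancel]
    exact Nat.nth_count hp
  refine Finset.card_le_card_of_injOn (fun p => Nat.count Nat.Prime p + 1) ?_ ?_
  · intro p hp
    rw [mem_coe, mem_filter, mem_Icc] at hp
    obtain ⟨⟨-, h1⟩, h2, h3⟩ := hp
    rw [mem_coe, mem_filter, mem_Icc]
    refine ⟨⟨Nat.le_add_left _ _, ?_⟩, ?_⟩
    · by_contra hcon
      have h4 := pr_strict (i := N) (j := Nat.count Nat.Prime p + 1) hN (not_le.1 hcon)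
      rw [hpr p h2] at h4
      omega
    · show cardFactors (pr (Nat.count Nat.Prime p + 1) ^ 2 - 2) ≤ R
      rw [hpr p h2]
      exact h3
  · intro p hp q hq hpq
    rw [mem_coe, mem_filter] at hp hq
    have h4 : pr (Nat.count Nat.Prime p + 1) = pr (Nat.count Nat.Prime q + 1) := by
      simp only at hpq
      rw [hpq]
    rw [hpr p hp.2.1, hpr q hq.2.1] at h4
    exact h4

/-- removing two exceptional sets -/
theorem card_sub {α : Type} [DecidableEq α] {K E1 E2 F : Finset α} (h : K ⊆ F ∪ (E1 ∪ E2)) :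
    (K.card : ℝ) - E1.card - E2.card ≤ F.card := by
  have h1 := (card_le_card h).trans ((card_union_le _ _).trans
    (Nat.add_le_add_left (card_union_le _ _) _))
  have h2 : (K.card : ℝ) ≤ ((F.card + (E1.card + E2.card) : ℕ) : ℝ) := Nat.cast_le.2 h1
  push_cast at h2
  linarith

/-- lower bound for `x / (log x) ^ 2` -/
theorem lower {c c2 n x : ℝ} (hc : 0 < c) (hc2 : 0 < c2) (hn : 4 ≤ n) (hln : 1 < log n)
    (hx : c2 * (n - 1) * log (n - 1) ≤ x) (hlx : 0 < log x) (hlx2 : log x ≤ 2 * log n) :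
    c * c2 / 16 * n / log n ≤ c * x / log x ^ 2 := by
  have h1 : log n / 2 ≤ log (n - 1) := by
    have h3 : log n ≤ log ((n - 1) * (n - 1)) := log_le_log (by linarith) (by nlinarith)
    rw [log_mul (by linarith) (by linarith)] at h3
    linarith
  have h2 : c2 * (n / 2) * (log n / 2) ≤ x := by
    refine le_trans ?_ hx
    have h4 : c2 * (n / 2) ≤ c2 * (n - 1) := mul_le_mul_of_nonneg_left (by linarith) hc2.le
    exact mul_le_mul h4 h1 (by linarith) (by nlinarith)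
  have h3 : log x ^ 2 ≤ 4 * log n ^ 2 := by nlinarith
  have hx0 : 0 ≤ x := le_trans (by positivity) h2
  have h4 : c * x / (4 * log n ^ 2) ≤ c * x / log x ^ 2 :=
    div_le_div_of_nonneg_left (by positivity) (by positivity) h3
  refine le_trans ?_ h4
  rw [div_le_div_iff₀ (by linarith) (by positivity)]
  have h5 : c * c2 / 16 * n * (4 * log n ^ 2) = c * (c2 * (n / 2) * (log n / 2)) * log n := by ring
  rw [h5]
  exact mul_le_mul_of_nonneg_right (mul_le_mul_of_nonneg_left h2 hc.le) (by linarith)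

theorem fb (hLB : Pool.Agent.H30.BV.T_LB) (hPL : Pool.Agent.H30.BV.T_PL) (hEX : T_EX)
    (hPN : T_PN) : Pool.Agent.H30.BV.T_FB := by
  classical
  obtain ⟨R, c, x0, hc, hLB⟩ := hLB
  obtain ⟨c2, hc2, hPL⟩ := hPL
  obtain ⟨C, hC, hPN⟩ := hPN
  have he := exp_one_lt_d9
  have he1 := exp_one_gt_d9
  -- the second value of `z`
  obtain ⟨z2, hz2⟩ : ∃ z2, z2 = exp 1.09 := ⟨_, rfl⟩
  have hz2a : z2 ≤ 2.9872 := by
    have h1 : z2 = exp 1 * exp 0.09 := by
      rw [hz2, ← exp_add]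
      norm_num
    have h2 : exp 0.09 ≤ 1 / 0.91 := by
      have h3 := add_one_le_exp (-0.09 : ℝ)
      rw [exp_neg] at h3
      rw [le_div_iff₀ (by norm_num)]
      have h4 : (0 : ℝ) < exp 0.09 := exp_pos _
      have h5 : exp 0.09 * (exp 0.09)⁻¹ = 1 := mul_inv_cancel₀ h4.ne'
      nlinarith
    rw [h1]
    nlinarith [exp_pos (0.09 : ℝ)]
  have hz2b : 1 ≤ z2 := by
    rw [hz2]
    exact one_le_exp (by norm_num)
  have hz2c : log z2 = 1.09 := by rw [hz2, log_exp]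
  obtain ⟨C1, x1, h1⟩ := hEX (exp 1) 2.74 0.01 3 (by linarith) (by linarith) (by norm_num)
    (by norm_num) (by norm_num)
  obtain ⟨C2, x2, h2⟩ := hEX z2 3.66 0.01 4 hz2b (by linarith) (by norm_num)
    (by norm_num) (by norm_num)
  obtain ⟨s1, hs1⟩ : ∃ s1 : ℝ, s1 = -(exp 1 - 1 - 2.74 * log (exp 1)) := ⟨_, rfl⟩
  obtain ⟨s2, hs2⟩ : ∃ s2 : ℝ, s2 = -(z2 - 1 - 3.66 * log z2) := ⟨_, rfl⟩
  have hs1' : exp 1 - 1 - 2.74 * log (exp 1) = -s1 := by rw [hs1]; ring
  have hs2' : z2 - 1 - 3.66 * log z2 = -s2 := by rw [hs2]; ring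
  rw [hs1'] at h1
  rw [hs2'] at h2
  have hs1a : 1.02 ≤ s1 := by
    rw [hs1, log_exp]
    linarith
  have hs2a : 2.002 ≤ s2 := by
    rw [hs2, hz2c]
    linarith
  obtain ⟨A, hA⟩ : ∃ A : ℝ, A = 2 * |C1| * C + 2 * |C2| * (2 * C ^ 2) := ⟨_, rfl⟩
  have hA0 : 0 ≤ A := by rw [hA]; positivity
  obtain ⟨c', hc'⟩ : ∃ c' : ℝ, c' = c * c2 / 16 := ⟨_, rfl⟩
  have hc'0 : 0 < c' := by rw [hc']; positivity
  have hev : ∀ᶠ n : ℕ in atTop, x0 + 1 ≤ n ∧ x1 ≤ n ∧ x2 ≤ n ∧ 4 ≤ n ∧ 1 < log (n : ℝ) ∧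
      200 ≤ log (log (n : ℝ)) ∧ C * (log (n : ℝ)) ^ 1 ≤ n ∧ 2 * C ^ 2 * (log (n : ℝ)) ^ 2 ≤ n ∧
      2 * A / c' ≤ (log (n : ℝ)) ^ (0.002 : ℝ) := by
    have e1 : ∀ᶠ n : ℕ in atTop, 2 * A / c' ≤ (log (n : ℝ)) ^ (0.002 : ℝ) :=
      ((tendsto_rpow_atTop (by norm_num)).comp tends_log).eventually_ge_atTop _
    filter_upwards [eventually_ge_atTop (x0 + 1), eventually_ge_atTop x1, eventually_ge_atTop x2,
      eventually_ge_atTop 4, tends_log.eventually_gt_atTop 1,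
      tends_loglog.eventually_ge_atTop 200, ev_log_pow C 1, ev_log_pow (2 * C ^ 2) 2, e1]
      with n a0 a1 a2 a3 a4 a5 a6 a7 a8
    exact ⟨a0, a1, a2, a3, a4, a5, a6, a7, a8⟩
  obtain ⟨n₀, hn₀⟩ := eventually_atTop.1 hev
  refine ⟨R, c' / 2, n₀, by positivity, fun n hn => ?_⟩
  obtain ⟨hx0, hx1, hx2, hn4, hln, hLL, hCn, hCn2, hAn⟩ := hn₀ n hn
  have hn0 : (0 : ℝ) < n := by exact_mod_cast (by omega : 0 < n)
  have hl0 : 0 < log (n : ℝ) := by linarith
  obtain ⟨L, hL⟩ : ∃ L, L = log (log (n : ℝ)) := ⟨_, rfl⟩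
  rw [← hL] at hLL ⊢
  obtain ⟨x, hx⟩ : ∃ x, x = pr n := ⟨_, rfl⟩
  obtain ⟨X, hX⟩ : ∃ X, X = pr x := ⟨_, rfl⟩
  have hnx : n ≤ x := hx ▸ (Nat.le_succ n).trans (le_pr (by omega))
  have hxX : x ≤ X := hX ▸ (Nat.le_succ x).trans (le_pr (by omega))
  have hnxR : (n : ℝ) ≤ x := by exact_mod_cast hnx
  have hxXR : (x : ℝ) ≤ X := by exact_mod_cast hxX
  have hlx : log (n : ℝ) ≤ log x := log_le_log hn0 hnxR
  have hlX : log (n : ℝ) ≤ log X := log_le_log hn0 (hnxR.trans hxXR)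
  have hxle : (x : ℝ) ≤ C * n * log n := hx ▸ hPN n (by omega)
  rw [pow_one] at hCn
  have hx0' : (0 : ℝ) < x := hn0.trans_le hnxR
  have hX0 : (0 : ℝ) < X := hx0'.trans_le hxXR
  have hlx2 : log (x : ℝ) ≤ 2 * log n := log_two_bound hn0 hx0' (sq_bound hxle hn0.le hCn)
  have hXle : (X : ℝ) ≤ 2 * C ^ 2 * n * (log n) ^ (2 : ℕ) := by
    have h3 : (X : ℝ) ≤ C * x * log x := hX ▸ hPN x (by omega)
    have h4 : C * x * log x ≤ C * (C * n * log n) * (2 * log n) := by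
      refine mul_le_mul (mul_le_mul_of_nonneg_left hxle hC.le) hlx2 (by linarith) (by positivity)
    have h5 : C * (C * n * log n) * (2 * log n) = 2 * C ^ 2 * n * (log n) ^ (2 : ℕ) := by ring
    exact (h3.trans h4).trans h5.le
  have hlX2 : log (X : ℝ) ≤ 2 * log n := log_two_bound hn0 hX0 (sq_bound hXle hn0.le hCn2)
  have hLx := loglog_le hln (by linarith) hlx2
  have hLX := loglog_le hln (by linarith) hlX2
  rw [← hL] at hLx hLX
  have hlog2 : log 2 ≤ 1 := by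
    have := log_two_lt_d9
    linarith
  have ht1 : (2.74 + 0.01) * log (log (x : ℝ)) ≤ 2.8 * L := by linarith
  have ht2 : (3.66 + 0.01) * log (log (X : ℝ)) ≤ 3.7 * L := by linarith
  have hone1 : 1 ≤ 2.8 * L := by linarith
  have hone2 : 1 ≤ 3.7 * L := by linarith
  have hk : ∀ k ∈ Icc 1 (n - 1), 1 ≤ k ∧ k ≤ n ∧ 1 ≤ n - k ∧ n - k ≤ n := by
    intro k hk
    rw [mem_Icc] at hk
    omega
  have h6 : ∀ j, 1 ≤ pr j := fun j => (pr_prime j).one_lt.le
  have b1 := bad_card (n := n) (X := x) (f := fun k => pr (n - k)) (fun k _ => pr_prime _)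
    (fun k h => hx ▸ pr_mono (hk k h).2.2.2) (fun k h l h' hkl => by
      have h3 := pr_inj (hk k h).2.2.1 (hk l h').2.2.1 hkl
      have h4 := (hk k h).2.1
      have h5 := (hk l h').2.1
      omega)
    hone1 ht1
  have b2 := bad_card (n := n) (X := X) (f := fun k => pr (pr (n - k))) (fun k _ => pr_prime _)
    (fun k h => hX ▸ pr_mono (hx ▸ pr_mono (hk k h).2.2.2)) (fun k h l h' hkl => by
      have h3 := pr_inj (hk k h).2.2.1 (hk l h').2.2.1 (pr_inj (h6 _) (h6 _) hkl)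
      have h4 := (hk k h).2.1
      have h5 := (hk l h').2.1
      omega)
    hone2 ht2
  have b3 := bad_card (n := n) (X := X) (f := fun k => pr (pr k)) (fun k _ => pr_prime _)
    (fun k h => hX ▸ pr_mono (hx ▸ pr_mono (hk k h).2.1)) (fun k h l h' hkl =>
      pr_inj (hk k h).1 (hk l h').1 (pr_inj (h6 _) (h6 _) hkl))
    hone2 ht2
  have c1 := h1 x (hx1.trans hnx)
  have d2 := h2 X (hx2.trans (hnx.trans hxX))
  have c1' := c1.trans (size_le (C1 := C1) (r := 1) hln hC.le hn0.le hx0'.le hlx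
    (by rw [rpow_one]; exact hxle) (by linarith) (by norm_num) (by linarith) (by norm_num))
  have d2' := d2.trans (size_le (C1 := C2) (r := 2) hln (by positivity : 0 ≤ 2 * C ^ 2) hn0.le
    hX0.le hlX (by rw [rpow_two]; exact hXle) (by linarith) (by norm_num) (by linarith)
    (by norm_num))
  -- the main set
  obtain ⟨W, hW⟩ : ∃ W, W = (log (n : ℝ)) ^ (-(1.002) : ℝ) := ⟨_, rfl⟩
  rw [← hW] at c1' d2'
  have hmain : c' * n / log n ≤
      (((Icc 1 (n - 1)).filter (fun k => cardFactors (pr k ^ 2 - 2) ≤ R)).card : ℝ) := by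
    have hy : n - 1 ≤ pr (n - 1) := (Nat.le_succ _).trans (le_pr (by omega))
    have hlb := hLB (pr (n - 1)) (by omega)
    have hcp := card_primes_le (n - 1) R (by omega)
    have hcp' : (((Icc 1 (pr (n - 1))).filter (fun p => p.Prime ∧
        cardFactors (p ^ 2 - 2) ≤ R)).card : ℝ) ≤
        (((Icc 1 (n - 1)).filter (fun k => cardFactors (pr k ^ 2 - 2) ≤ R)).card : ℝ) :=
      Nat.cast_le.2 hcp
    refine le_trans ?_ (hlb.trans hcp')
    have hpl := hPL (n - 1) (by omega)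
    rw [Nat.cast_sub (by omega), Nat.cast_one] at hpl
    have hyx : ((pr (n - 1) : ℕ) : ℝ) ≤ x := by
      rw [hx]
      exact_mod_cast pr_mono (Nat.sub_le n 1)
    have hy1 : (1 : ℝ) < ((pr (n - 1) : ℕ) : ℝ) := by
      exact_mod_cast (pr_prime (n - 1)).one_lt
    rw [hc']
    exact lower hc hc2 (by exact_mod_cast hn4) hln hpl (log_pos hy1)
      ((log_le_log (by linarith) hyx).trans hlx2)
  have hfin : c' / 2 * n / log n ≤ c' * n / log n - A * (n * W) := by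
    have hsplit : W = (log (n : ℝ)) ^ (-(0.002) : ℝ) * (log (n : ℝ))⁻¹ := by
      rw [hW, ← rpow_neg_one, ← rpow_add hl0]
      congr 1
      norm_num
    have hinv : (log (n : ℝ)) ^ (-(0.002) : ℝ) = ((log (n : ℝ)) ^ (0.002 : ℝ))⁻¹ :=
      rpow_neg hl0.le _
    have hpos : 0 < (log (n : ℝ)) ^ (0.002 : ℝ) := rpow_pos_of_pos hl0 _
    have h7 : A * ((log (n : ℝ)) ^ (0.002 : ℝ))⁻¹ ≤ c' / 2 := by
      rw [← div_eq_mul_inv, div_le_iff₀ hpos]
      rw [div_le_iff₀ hc'0] at hAn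
      linarith
    have h8 : A * (n * W) = (A * ((log (n : ℝ)) ^ (0.002 : ℝ))⁻¹) * (n / log n) := by
      rw [hsplit, hinv]
      ring
    have h9 : (A * ((log (n : ℝ)) ^ (0.002 : ℝ))⁻¹) * (n / log n) ≤ c' / 2 * (n / log n) :=
      mul_le_mul_of_nonneg_right h7 (by positivity)
    have h10 : c' / 2 * n / log n = c' * n / log n - c' / 2 * (n / log n) := by ring
    rw [h8, h10]
    linarith
  have hA2 : A * (n * W) = 2 * |C1| * (C * n * W) + 2 * |C2| * (2 * C ^ 2 * n * W) := by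
    rw [hA]
    ring
  constructor
  · have hsub : (Icc 1 (n - 1)).filter (fun k => cardFactors (pr k ^ 2 - 2) ≤ R) ⊆
        (Icc 1 (n - 1)).filter (fun k =>
          cardFactors (pr k ^ 2 - 2) ≤ R ∧
          (cardFactors (pr (n - k) ^ 2 - 2) : ℝ) ≤ 2.8 * L ∧
          (cardFactors (pr (pr (n - k)) ^ 2 - 2) : ℝ) ≤ 3.7 * L) ∪
        ((Icc 1 (n - 1)).filter (fun k => ¬ ((cardFactors (pr (n - k) ^ 2 - 2) : ℝ) ≤ 2.8 * L)) ∪
        (Icc 1 (n - 1)).filter
          (fun k => ¬ ((cardFactors (pr (pr (n - k)) ^ 2 - 2) : ℝ) ≤ 3.7 * L))) := by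
      intro k hk'
      rw [mem_filter] at hk'
      rw [mem_union, mem_union, mem_filter, mem_filter, mem_filter]
      by_cases q1 : (cardFactors (pr (n - k) ^ 2 - 2) : ℝ) ≤ 2.8 * L
      · by_cases q2 : (cardFactors (pr (pr (n - k)) ^ 2 - 2) : ℝ) ≤ 3.7 * L
        · exact Or.inl ⟨hk'.1, hk'.2, q1, q2⟩
        · exact Or.inr (Or.inr ⟨hk'.1, q2⟩)
      · exact Or.inr (Or.inl ⟨hk'.1, q1⟩)
    have h11 := card_sub hsub
    linarith
  · have hsub : (Icc 1 (n - 1)).filter (fun k => cardFactors (pr k ^ 2 - 2) ≤ R) ⊆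
        (Icc 1 (n - 1)).filter (fun m =>
          (cardFactors (pr (n - m) ^ 2 - 2) : ℝ) ≤ 2.8 * L ∧
          cardFactors (pr m ^ 2 - 2) ≤ R ∧
          (cardFactors (pr (pr m) ^ 2 - 2) : ℝ) ≤ 3.7 * L) ∪
        ((Icc 1 (n - 1)).filter (fun k => ¬ ((cardFactors (pr (n - k) ^ 2 - 2) : ℝ) ≤ 2.8 * L)) ∪
        (Icc 1 (n - 1)).filter
          (fun k => ¬ ((cardFactors (pr (pr k) ^ 2 - 2) : ℝ) ≤ 3.7 * L))) := by
      intro k hk'
      rw [mem_filter] at hk'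
      rw [mem_union, mem_union, mem_filter, mem_filter, mem_filter]
      by_cases q1 : (cardFactors (pr (n - k) ^ 2 - 2) : ℝ) ≤ 2.8 * L
      · by_cases q2 : (cardFactors (pr (pr k) ^ 2 - 2) : ℝ) ≤ 3.7 * L
        · exact Or.inl ⟨hk'.1, q1, hk'.2, q2⟩
        · exact Or.inr (Or.inr ⟨hk'.1, q2⟩)
      · exact Or.inr (Or.inl ⟨hk'.1, q1⟩)
    have h11 := card_sub hsub
    linarith

end Pool.Agent.H51.BV
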